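import Pool.Agent.Y97.Law

/-!
# Positivity of the form on the algebraic classes (job FD-POS)
-/

set_option linter.unusedSectionVars false

open CategoryTheory AlgebraicGeometry Finset

universe u v

namespace Pool.Agent.Y46.FD

open Pool.Agent.H914 Pool.Agent.H914.VarClass Pool.Agent.H914.VarClass.Obj
  Pool.Agent.H914.WeilCohomology Pool.Agent.H281R3.HT Pool.Agent.W552 Pool.Agent.W539.Ker
  Pool.Agent.Y97

variable {k : Type u} [Field k] {𝒱 : VarClass k} {ops : CycleOps 𝒱}
  {W : WeilCohomology.{u, v} ops}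

/-- A maximal family with positive squares in each weight. -/
lemma exists_pos_fam {X : 𝒱.Obj} {D : X.Cycles} {f : Module.End W.K (W.H X)}
    (F : Fr W X D f) (hH : HodgeNum W X D) (m : ℤ) :
    ∃ (ι : Type) (_ : Fintype ι) (y : ι → W.H X) (s : ι → ℚ),
      MF (bf W X D f) (AW W X m) y s ∧ ∀ i, 0 < s i := by
  classical
  obtain ⟨ι, hι, y, s, hMF, hs1, hs2⟩ := exists_fam2 F m
  refine ⟨ι, hι, y, s, hMF, ?_⟩
  have hneg : ∀ n, 2 * n ≤ X.dim → signs W X D n (-1) = 0 := by
    intro n hn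
    exact signs_neg (P := ⟨X, D⟩) F hH hn
  have h1 : wsum X.dim (sig W X D) m =
      wsum X.dim (fun n => ((signs W X D n 1 + signs W X D n (-1) : ℕ) : ℤ)) m := by
    unfold wsum
    refine Finset.sum_congr rfl fun n hn => ?_
    rw [Finset.mem_range] at hn
    split_ifs with h
    · have h2 : sig W X D n = (signs W X D n 1 : ℤ) - (signs W X D n (-1) : ℤ) := rfl
      have h3 : (signs W X D n (-1) : ℤ) = 0 := by rw [hneg n (by omega)]; rfl
      rw [h2, h3]
      push_cast
      rw [h3]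
      ring
    · rfl
  have h2 : ∑ i, ((SignType.sign (s i) : SignType) : ℤ) = ∑ _i : ι, (1 : ℤ) := by
    rw [hs1, h1, ← hs2, Finset.sum_const, Finset.card_univ, nsmul_eq_mul, mul_one]
  have hle : ∀ i ∈ (univ : Finset ι), ((SignType.sign (s i) : SignType) : ℤ) ≤ 1 := by
    intro i _
    rcases lt_trichotomy (s i) 0 with h0 | h0 | h0
    · rw [sign_neg h0]; simp
    · rw [h0]; simp
    · rw [sign_pos h0]; simp
  have h3 := (Finset.sum_eq_sum_iff_of_le hle).1 h2
  intro i
  have h4 := h3 i (mem_univ i)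
  rcases lt_trichotomy (s i) 0 with h0 | h0 | h0
  · rw [sign_neg h0] at h4; simp at h4
  · exact absurd h0 (hMF.ne i)
  · exact h0

/-- Positivity in a weight. -/
lemma pos_wt {X : 𝒱.Obj} {D : X.Cycles} {f : Module.End W.K (W.H X)}
    (F : Fr W X D f) (S : Sy W X D f) (hH : HodgeNum W X D) {m : ℤ} {c : W.H X}
    (hc : AW W X m c) : ∃ q : ℚ, bf W X D f c c = (q : W.K) ∧ 0 ≤ q ∧
      (q = 0 → ∀ d, AW W X m d → bf W X D f c d = 0) := by
  classical
  obtain ⟨ι, hι, y, s, hMF, hs⟩ := exists_pos_fam F hH m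
  have hR := rq_AW F S m
  choose a ha using fun i => hR.rat hc (hMF.mem i)
  have h1 := hMF.expand hR hc hc ha ha
  refine ⟨_, h1, Finset.sum_nonneg fun i _ => ?_, fun h0 d hd => ?_⟩
  · have := hs i
    have h2 := mul_self_nonneg (a i)
    calc (0 : ℚ) ≤ (a i * a i) / s i := div_nonneg h2 this.le
      _ = _ := by ring
  · choose a' ha' using fun i => hR.rat hd (hMF.mem i)
    rw [hMF.expand hR hc hd ha ha']
    have h2 : ∀ i ∈ (univ : Finset ι), (0 : ℚ) ≤ a i * (a i / s i) := by
      intro i _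
      have h3 := mul_self_nonneg (a i)
      calc (0 : ℚ) ≤ (a i * a i) / s i := div_nonneg h3 (hs i).le
        _ = _ := by ring
    have h3 := (Finset.sum_eq_zero_iff_of_nonneg h2).1 h0
    have h4 : ∀ i, a i = 0 := by
      intro i
      have h5 := h3 i (mem_univ i)
      rcases mul_eq_zero.1 h5 with h6 | h6
      · exact h6
      · rcases div_eq_zero_iff.1 h6 with h7 | h7
        · exact h7
        · exact absurd h7 (hs i).ne'
    rw [Finset.sum_eq_zero fun i _ => by rw [h4 i, zero_mul], Rat.cast_zero]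

theorem pos_of_hodge {X : 𝒱.Obj} {D : X.Cycles} {f : Module.End W.K (W.H X)} (F : Fr W X D f)
    (S : Sy W X D f) (hH : HodgeNum W X D) {c : W.H X} (hc : AS W X c) {q : ℚ}
    (hq : bf W X D f c c = (q : W.K)) :
    0 ≤ q ∧ (q = 0 → ∀ d, AS W X d → bf W X D f c d = 0) := by
  classical
  have hAW : ∀ {x : W.H X}, AS W X x → ∀ j : ℕ,
      AW W X (((2 * j : ℕ) : ℤ) - (X.dim : ℤ)) (proj (W.isInternal X) (2 * j) x) := by
    intro x hx j
    refine ⟨AS.of (hx.proj j), ?_⟩
    rw [Fr.wt_gr (alg_gr (hx.proj j))]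
    push_cast
    rfl
  have hexp : ∀ {x y : W.H X}, AS W X x → AS W X y → bf W X D f x y =
      ∑ j ∈ Finset.range (X.dim + 1), bf W X D f (proj (W.isInternal X) (2 * j) x)
        (proj (W.isInternal X) (2 * j) y) := by
    intro x y hx hy
    conv_lhs => rw [Fr.AS_sum hx, Fr.AS_sum hy]
    rw [map_sum (bf W X D f), LinearMap.sum_apply]
    refine Finset.sum_congr rfl fun j hj => ?_
    rw [map_sum, Finset.sum_eq_single j]
    · intro i _ hij
      exact F.bf_deg (proj_mem _ _ _) (proj_mem _ _ _) (by omega)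
    · intro h0
      exact absurd hj h0
  choose r hr1 hr2 hr3 using fun j : ℕ => pos_wt F S hH (hAW hc j)
  have hqr : q = ∑ j ∈ Finset.range (X.dim + 1), r j := by
    have h1 := hexp hc hc
    rw [hq, Finset.sum_congr rfl (fun j _ => hr1 j), ← Rat.cast_sum] at h1
    exact_mod_cast h1
  refine ⟨?_, fun h0 d hd => ?_⟩
  · rw [hqr]
    exact Finset.sum_nonneg fun j _ => hr2 j
  · rw [hqr] at h0
    have h1 := (Finset.sum_eq_zero_iff_of_nonneg fun j _ => hr2 j).1 h0
    rw [hexp hc hd]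
    refine Finset.sum_eq_zero fun j hj => ?_
    exact hr3 j (h1 j hj) _ (hAW hd j)

end Pool.Agent.Y46.FD
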